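import Mathlib

/-!
# A counterexample to the edge-boundary size bound

`G = ℤ_2 × ℤ_2 × ℤ_4` has rank `3`, the set `S = {(0,0,1), (1,0,1), (0,1,1)}` generates it and
consists of elements of order `4`; with `A = G` and `γ = 1` one gets `|A| = 16 < 4 ^ (9/4)`.
-/

namespace Pool.Agent.Results.MP_039f74_co.Disproof

/-- The edge boundary `∂_S(A) = #{(a, s) ∈ A × S : a + s ∉ A}`. -/
def edgeBoundary {G : Type*} [AddCommGroup G] [DecidableEq G] (S A : Finset G) : ℕ :=
  ((A ×ˢ S).filter (fun p => p.1 + p.2 ∉ A)).card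

/-- The rank of `G`: the minimum number of elements needed to generate `G`. -/
noncomputable def rk (G : Type*) [AddCommGroup G] : ℕ :=
  sInf {k : ℕ | ∃ T : Finset G, T.card = k ∧ AddSubgroup.closure (T : Set G) = ⊤}

/-- The smallest order of an element of `S`. -/
noncomputable def minOrder {G : Type*} [AddCommGroup G] (S : Finset G) : ℕ :=
  sInf {k : ℕ | ∃ s ∈ S, addOrderOf s = k}

/-- The group `ℤ_2 × ℤ_2 × ℤ_4`. -/
abbrev G0 : Type := ZMod 2 × ZMod 2 × ZMod 4

theorem smul4 (a : G0) : (4 : ℤ) • a = 0 := by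
  obtain ⟨a1, a2, a3⟩ := a
  simp only [Prod.smul_mk, zsmul_eq_mul]
  have e1 : ((4 : ℤ) : ZMod 2) = 0 := by decide
  have e2 : ((4 : ℤ) : ZMod 4) = 0 := by decide
  rw [e1, e2, zero_mul, zero_mul, zero_mul]
  rfl

theorem zsmul_mod (n : ℤ) (a : G0) : ∃ l : Fin 4, n • a = (l : ℕ) • a := by
  refine ⟨⟨(n % 4).toNat, by omega⟩, ?_⟩
  have h24 : n • a = (n % 4) • a := by
    conv_lhs => rw [← Int.emod_add_mul_ediv n 4]
    rw [add_smul, mul_comm, mul_smul, smul4, smul_zero, add_zero]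
  rw [h24, ← natCast_zsmul]
  congr 1
  simp only
  rw [Int.toNat_of_nonneg (by omega)]

theorem pair_fail : ∀ a b : G0, ∃ x : G0, ∀ l m : Fin 4,
    (l : ℕ) • a + (m : ℕ) • b ≠ x := by
  decide

theorem closure_pair (a b : G0) : AddSubgroup.closure ({a, b} : Set G0) ≠ ⊤ := by
  intro h
  obtain ⟨x, hx⟩ := pair_fail a b
  have hmem : x ∈ AddSubgroup.closure ({a, b} : Set G0) := by rw [h]; trivial
  rw [AddSubgroup.mem_closure_pair] at hmem
  obtain ⟨m, n, hmn⟩ := hmem
  obtain ⟨l1, h1⟩ := zsmul_mod m a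
  obtain ⟨l2, h2⟩ := zsmul_mod n b
  rw [h1, h2] at hmn
  exact hx l1 l2 hmn

/-- The generating set. -/
def S0 : Finset G0 := {(0, 0, 1), (1, 0, 1), (0, 1, 1)}

theorem S0_gen : AddSubgroup.closure (S0 : Set G0) = ⊤ := by
  rw [eq_top_iff]
  intro x _
  have m1 : ((0, 0, 1) : G0) ∈ AddSubgroup.closure (S0 : Set G0) :=
    AddSubgroup.subset_closure (by simp [S0])
  have m2 : ((1, 0, 1) : G0) ∈ AddSubgroup.closure (S0 : Set G0) :=
    AddSubgroup.subset_closure (by simp [S0])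
  have m3 : ((0, 1, 1) : G0) ∈ AddSubgroup.closure (S0 : Set G0) :=
    AddSubgroup.subset_closure (by simp [S0])
  have key : ∀ y : G0, ∃ i j k : Fin 4, (i : ℕ) • ((0, 0, 1) : G0) + (j : ℕ) • ((1, 0, 1) : G0)
      + (k : ℕ) • ((0, 1, 1) : G0) = y := by decide
  obtain ⟨i, j, k, h⟩ := key x
  rw [← h]
  exact add_mem (add_mem (nsmul_mem m1 _) (nsmul_mem m2 _)) (nsmul_mem m3 _)

theorem rk_eq : rk G0 = 3 := by
  have hmem : 3 ∈ {k : ℕ | ∃ T : Finset G0, T.card = k ∧
      AddSubgroup.closure (T : Set G0) = ⊤} := ⟨S0, by decide, S0_gen⟩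
  have hle : rk G0 ≤ 3 := Nat.sInf_le hmem
  obtain ⟨T, hT, hgen⟩ := Nat.sInf_mem ⟨3, hmem⟩
  have hT' : T.card = rk G0 := hT
  by_contra hne
  have h2 : T.card ≤ 2 := by omega
  have : ∃ a b : G0, T ⊆ {a, b} := by
    obtain ⟨U, hTU, hU⟩ := Finset.exists_superset_card_eq (n := 2) h2
      (by decide : 2 ≤ Fintype.card G0)
    obtain ⟨a, b, -, rfl⟩ := Finset.card_eq_two.mp hU
    exact ⟨a, b, hTU⟩
  obtain ⟨a, b, hab⟩ := this
  apply closure_pair a b
  rw [eq_top_iff, ← hgen]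
  apply AddSubgroup.closure_mono
  intro x hx
  have := hab hx
  simpa using this

theorem order_eq (s : G0) (h : 2 • s ≠ 0) : addOrderOf s = 4 := by
  have h4 : 2 ^ (1 + 1) • s = 0 := by
    have := smul4 s
    rw [ofNat_zsmul] at this
    simpa using this
  have := addOrderOf_eq_prime_pow (p := 2) (n := 1) (x := s) (by simpa using h) h4
  simpa using this

theorem minOrder_eq : minOrder S0 = 4 := by
  have h : {k : ℕ | ∃ s ∈ S0, addOrderOf s = k} = {4} := by
    ext k
    simp only [Set.mem_ofPred_eq, Set.mem_singleton_iff]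
    constructor
    · rintro ⟨s, hs, rfl⟩
      apply order_eq
      revert s
      decide
    · rintro rfl
      exact ⟨(0, 0, 1), by decide, order_eq _ (by decide)⟩
  unfold minOrder
  rw [h, csInf_singleton]

/-- There are a finite abelian group `G`, a generating set `S`, a real `γ ∈ (0, 1]` and a
non-empty `A ⊆ G` with `∂_S(A) ≤ (1 - γ) n |A|` and `|A| < 4 ^ ((1 - 1/d) γ n)`, where `n` is the
rank of `G` and `d` the minimal order of an element of `S`. One can even take `S` to be a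
generating set of the least possible size `n`. -/
theorem result : ∃ (G : Type) (_ : AddCommGroup G) (_ : Fintype G) (_ : DecidableEq G)
    (S : Finset G) (γ : ℝ) (A : Finset G),
    AddSubgroup.closure (S : Set G) = ⊤ ∧ S.card = rk G ∧ 0 < γ ∧ γ ≤ 1 ∧ A.Nonempty ∧
    (edgeBoundary S A : ℝ) ≤ (1 - γ) * (rk G : ℝ) * (A.card : ℝ) ∧
    (A.card : ℝ) < (4 : ℝ) ^ ((1 - 1 / (minOrder S : ℝ)) * γ * (rk G : ℝ)) := by
  refine ⟨G0, inferInstance, inferInstance, inferInstance, S0, 1, Finset.univ, S0_gen,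
    by rw [rk_eq]; decide, one_pos, le_refl 1, ⟨0, Finset.mem_univ 0⟩, ?_, ?_⟩
  · have : edgeBoundary S0 (Finset.univ : Finset G0) = 0 := by
      unfold edgeBoundary
      rw [Finset.card_eq_zero, Finset.filter_eq_empty_iff]
      intro p _ hp
      exact hp (Finset.mem_univ _)
    rw [this]
    simp
  · have hc : (Finset.univ : Finset G0).card = 16 := by decide
    rw [hc, minOrder_eq, rk_eq]
    have h16 : ((16 : ℕ) : ℝ) = (4 : ℝ) ^ (2 : ℝ) := by
      rw [Real.rpow_two]; norm_num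
    rw [h16]
    apply Real.rpow_lt_rpow_of_exponent_lt (by norm_num)
    norm_num

end Pool.Agent.Results.MP_039f74_co.Disproof
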